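import Mathlib

set_option autoImplicit false

/-!
# The cancellation law fails for equidecomposability with restricted pieces

The example: `X` is the circle without a countable set, the pieces are the Borel subsets of `X`, and
the group is the infinite dihedral group generated by the two reflections `x ↦ -x`, `x ↦ a - x`,
where `a` is an irrational rotation angle.
-/

namespace Pool.Agent.Results.MP_3fd8c4_al.CancellationFails

universe u v

set_option linter.unusedSectionVars false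
set_option linter.deprecated false

/-! ## Definitions -/

/-- A `G`-invariant subalgebra of the algebra of all subsets of `X`. -/
structure InvAlgebra (G : Type u) (X : Type v) [Group G] [MulAction G X] where
  /-- the members of the subalgebra -/
  sets : Set (Set X)
  empty_mem : ∅ ∈ sets
  univ_mem : Set.univ ∈ sets
  union_mem : ∀ A ∈ sets, ∀ B ∈ sets, A ∪ B ∈ sets
  inter_mem : ∀ A ∈ sets, ∀ B ∈ sets, A ∩ B ∈ sets
  compl_mem : ∀ A ∈ sets, Aᶜ ∈ sets
  image_mem : ∀ (g : G), ∀ A ∈ sets, (fun x => g • x) '' A ∈ sets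

section Defs

variable {G : Type u} {X : Type v} [Group G] [MulAction G X]

/-- The action of `G^* = G × Sym(ℕ)` on `X^* = X × ℕ`: `(g, π) (x, n) = (g x, π n)`. -/
def act (h : G × Equiv.Perm ℕ) : (X × ℕ) ≃ (X × ℕ) where
  toFun p := (h.1 • p.1, h.2 p.2)
  invFun p := (h.1⁻¹ • p.1, h.2.symm p.2)
  left_inv p := by simp
  right_inv p := by simp

/-- The family `𝒜^*` of all sets `⋃_{m < n} A_m × {m}` with all `A_m` in `𝒜`. -/
def Star (𝒜 : InvAlgebra G X) : Set (Set (X × ℕ)) :=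
  {A | ∃ (n : ℕ) (B : ℕ → Set X), (∀ m < n, B m ∈ 𝒜.sets) ∧ A = {p | p.2 < n ∧ p.1 ∈ B p.2}}

/-- Equidecomposability in `𝒜`. -/
def Equidec (𝒜 : InvAlgebra G X) (A B : Set (X × ℕ)) : Prop :=
  ∃ (k : ℕ) (P : Fin k → Set (X × ℕ)) (h : Fin k → G × Equiv.Perm ℕ),
    (∀ i, P i ∈ Star 𝒜) ∧
    (∀ i j, i ≠ j → P i ∩ P j = ∅) ∧ (⋃ i, P i) = A ∧
    (∀ i j, i ≠ j → (act (h i) '' P i) ∩ (act (h j) '' P j) = ∅) ∧
    (⋃ i, act (h i) '' P i) = B

/-- The set `A` with all levels shifted upward by `n`. -/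
def shift (n : ℕ) (A : Set (X × ℕ)) : Set (X × ℕ) := {p | ∃ m, p.2 = m + n ∧ (p.1, m) ∈ A}

theorem mem_star {𝒜 : InvAlgebra G X} {A : Set (X × ℕ)} :
    A ∈ Star 𝒜 ↔ (∀ m, {x | (x, m) ∈ A} ∈ 𝒜.sets) ∧ ∃ n, ∀ p ∈ A, p.2 < n := by
  constructor
  · rintro ⟨n, B, hB, rfl⟩
    refine ⟨fun m => ?_, n, fun p hp => hp.1⟩
    by_cases h : m < n
    · have : {x | (x, m) ∈ {p : X × ℕ | p.2 < n ∧ p.1 ∈ B p.2}} = B m := by
        ext x; simp [h]
      rw [this]; exact hB m h
    · have : {x | (x, m) ∈ {p : X × ℕ | p.2 < n ∧ p.1 ∈ B p.2}} = ∅ := by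
        ext x; simp [h]
      rw [this]; exact 𝒜.empty_mem
  · rintro ⟨h, n, hn⟩
    refine ⟨n, fun m => {x | (x, m) ∈ A}, fun m _ => h m, ?_⟩
    ext ⟨x, m⟩
    simp only [Set.mem_setOf_eq]
    exact ⟨fun hp => ⟨hn _ hp, hp⟩, fun hp => hp.2⟩

theorem star_inter {𝒜 : InvAlgebra G X} {A B : Set (X × ℕ)} (hA : A ∈ Star 𝒜) (hB : B ∈ Star 𝒜) :
    A ∩ B ∈ Star 𝒜 := by
  rw [mem_star] at *
  obtain ⟨h1, n, hn⟩ := hA
  obtain ⟨h2, m, hm⟩ := hB
  exact ⟨fun k => 𝒜.inter_mem _ (h1 k) _ (h2 k), n, fun p hp => hn p hp.1⟩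

theorem star_union {𝒜 : InvAlgebra G X} {A B : Set (X × ℕ)} (hA : A ∈ Star 𝒜) (hB : B ∈ Star 𝒜) :
    A ∪ B ∈ Star 𝒜 := by
  rw [mem_star] at *
  obtain ⟨h1, n, hn⟩ := hA
  obtain ⟨h2, m, hm⟩ := hB
  refine ⟨fun k => 𝒜.union_mem _ (h1 k) _ (h2 k), max n m, ?_⟩
  rintro p (hp | hp)
  · exact lt_of_lt_of_le (hn p hp) (le_max_left _ _)
  · exact lt_of_lt_of_le (hm p hp) (le_max_right _ _)

theorem star_act {𝒜 : InvAlgebra G X} {A : Set (X × ℕ)} (h : G × Equiv.Perm ℕ)
    (hA : A ∈ Star 𝒜) : act h '' A ∈ Star 𝒜 := by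
  rw [mem_star] at *
  obtain ⟨h1, n, hn⟩ := hA
  constructor
  · intro m
    have : {x | (x, m) ∈ act h '' A} = (fun x => h.1 • x) '' {x | (x, h.2.symm m) ∈ A} := by
      ext x
      constructor
      · rintro ⟨⟨y, k⟩, hy, he⟩
        simp only [act, Equiv.coe_fn_mk, Prod.mk.injEq] at he
        obtain ⟨rfl, rfl⟩ := he
        exact ⟨y, by simpa using hy, rfl⟩
      · rintro ⟨y, hy, rfl⟩
        exact ⟨(y, h.2.symm m), hy, by simp [act]⟩
    rw [this]
    exact 𝒜.image_mem _ _ (h1 _)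
  · obtain ⟨M, hM⟩ := ((Finset.range n).image h.2).exists_nat_subset_range
    refine ⟨M, ?_⟩
    rintro _ ⟨⟨y, k⟩, hy, rfl⟩
    have := hM (Finset.mem_image_of_mem h.2 (Finset.mem_range.2 (hn _ hy)))
    simpa [act] using this

theorem star_shift {𝒜 : InvAlgebra G X} {A : Set (X × ℕ)} (n : ℕ) (hA : A ∈ Star 𝒜) :
    shift n A ∈ Star 𝒜 := by
  rw [mem_star] at *
  obtain ⟨h1, k, hk⟩ := hA
  constructor
  · intro m
    by_cases h : n ≤ m
    · have : {x | (x, m) ∈ shift n A} = {x | (x, m - n) ∈ A} := by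
        ext x
        constructor
        · rintro ⟨j, hj, hx⟩
          have : m - n = j := by simp only at hj; omega
          simpa [this] using hx
        · intro hx
          exact ⟨m - n, by simp only; omega, hx⟩
      rw [this]; exact h1 _
    · have : {x | (x, m) ∈ shift n A} = ∅ := by
        ext x
        simp only [Set.mem_setOf_eq, Set.mem_empty_iff_false, iff_false]
        rintro ⟨j, hj, hx⟩
        simp only at hj; omega
      rw [this]; exact 𝒜.empty_mem
  · refine ⟨k + n, ?_⟩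
    rintro ⟨x, m⟩ ⟨j, hj, hx⟩
    have := hk _ hx
    simp only at hj this ⊢
    omega

/-! ### Equidecomposability is an equivalence relation -/

theorem Equidec.of_finite {𝒜 : InvAlgebra G X} {A B : Set (X × ℕ)} {ι : Type*} [Finite ι]
    (P : ι → Set (X × ℕ)) (h : ι → G × Equiv.Perm ℕ) (h1 : ∀ i, P i ∈ Star 𝒜)
    (h2 : ∀ i j, i ≠ j → P i ∩ P j = ∅) (h3 : (⋃ i, P i) = A)
    (h4 : ∀ i j, i ≠ j → (act (h i) '' P i) ∩ (act (h j) '' P j) = ∅)
    (h5 : (⋃ i, act (h i) '' P i) = B) : Equidec 𝒜 A B := by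
  obtain ⟨k, ⟨e⟩⟩ := Finite.exists_equiv_fin ι
  refine ⟨k, P ∘ e.symm, h ∘ e.symm, fun i => h1 _, fun i j hij => h2 _ _ ?_, ?_,
    fun i j hij => h4 _ _ ?_, ?_⟩
  · exact e.symm.injective.ne hij
  · rw [← h3]; exact e.symm.surjective.iUnion_comp P
  · exact e.symm.injective.ne hij
  · rw [← h5]; exact e.symm.surjective.iUnion_comp (fun i => act (h i) '' P i)

theorem Equidec.refl {𝒜 : InvAlgebra G X} {A : Set (X × ℕ)} (hA : A ∈ Star 𝒜) :
    Equidec 𝒜 A A := by
  refine Equidec.of_finite (ι := Unit) (fun _ => A) (fun _ => 1) (fun _ => hA) ?_ ?_ ?_ ?_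
  · intro i j hij; exact absurd (Subsingleton.elim i j) hij
  · exact Set.iUnion_const _
  · intro i j hij; exact absurd (Subsingleton.elim i j) hij
  · have : (act (1 : G × Equiv.Perm ℕ) : (X × ℕ) ≃ (X × ℕ)) = Equiv.refl _ := by
      ext p <;> simp [act]
    simp only [this, Equiv.coe_refl, Set.image_id]
    exact Set.iUnion_const _

theorem act_act (h h' : G × Equiv.Perm ℕ) (p : X × ℕ) : act h (act h' p) = act (h * h') p := by
  simp [act, mul_smul]

theorem act_inv_act (h : G × Equiv.Perm ℕ) (p : X × ℕ) : act h⁻¹ (act h p) = p := by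
  rw [act_act]; simp [act]

theorem act_act_inv (h : G × Equiv.Perm ℕ) (p : X × ℕ) : act h (act h⁻¹ p) = p := by
  rw [act_act]; simp [act]

theorem act_inv_image (h : G × Equiv.Perm ℕ) (A : Set (X × ℕ)) : act h⁻¹ '' (act h '' A) = A := by
  rw [← Set.image_comp]
  convert Set.image_id A using 1
  apply Set.image_congr'
  intro p
  exact act_inv_act h p

theorem Equidec.symm {𝒜 : InvAlgebra G X} {A B : Set (X × ℕ)} (h : Equidec 𝒜 A B) :
    Equidec 𝒜 B A := by
  obtain ⟨k, P, h, h1, h2, h3, h4, h5⟩ := h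
  refine ⟨k, fun i => act (h i) '' P i, fun i => (h i)⁻¹, fun i => star_act _ (h1 i), h4, h5, ?_, ?_⟩
  · intro i j hij
    rw [act_inv_image, act_inv_image]
    exact h2 i j hij
  · simp only [act_inv_image]
    exact h3

theorem Equidec.trans {𝒜 : InvAlgebra G X} {A B C : Set (X × ℕ)} (h : Equidec 𝒜 A B)
    (h' : Equidec 𝒜 B C) : Equidec 𝒜 A C := by
  obtain ⟨k, P, h, h1, h2, h3, h4, h5⟩ := h
  obtain ⟨k', P', h', h1', h2', h3', h4', h5'⟩ := h'
  have key : ∀ i j, act (h' j * h i) '' (P i ∩ act (h i)⁻¹ '' P' j) =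
      act (h' j) '' (act (h i) '' P i ∩ P' j) := by
    intro i j
    ext p
    constructor
    · rintro ⟨q, ⟨hq1, r, hr, hrq⟩, rfl⟩
      refine ⟨act (h i) q, ⟨⟨q, hq1, rfl⟩, ?_⟩, act_act _ _ _⟩
      rw [← hrq, act_act_inv]; exact hr
    · rintro ⟨_, ⟨⟨q, hq, rfl⟩, hr⟩, rfl⟩
      exact ⟨q, ⟨hq, act (h i) q, hr, act_inv_act _ _⟩, (act_act _ _ _).symm⟩
  refine Equidec.of_finite (ι := Fin k × Fin k')
    (fun ij => P ij.1 ∩ act (h ij.1)⁻¹ '' P' ij.2) (fun ij => h' ij.2 * h ij.1) ?_ ?_ ?_ ?_ ?_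
  · intro ij
    exact star_inter (h1 _) (star_act _ (h1' _))
  · rintro ⟨i, j⟩ ⟨i', j'⟩ hne
    by_cases hi : i = i'
    · subst hi
      have hj : j ≠ j' := fun hj => hne (by rw [hj])
      have h6 := h2' j j' hj
      rw [Set.eq_empty_iff_forall_notMem] at h6 ⊢
      rintro p ⟨⟨_, q, hq, hqp⟩, ⟨_, q', hq', hqp'⟩⟩
      have : q = q' := (act (h i)⁻¹).injective (hqp.trans hqp'.symm)
      subst this
      exact h6 q ⟨hq, hq'⟩
    · have h6 := h2 i i' hi
      rw [Set.eq_empty_iff_forall_notMem] at h6 ⊢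
      rintro p ⟨⟨hp, _⟩, ⟨hp', _⟩⟩
      exact h6 p ⟨hp, hp'⟩
  · rw [← h3]
    ext p
    simp only [Set.mem_iUnion]
    constructor
    · rintro ⟨⟨i, j⟩, hp, _⟩
      exact ⟨i, hp⟩
    · rintro ⟨i, hp⟩
      have hB : act (h i) p ∈ B := by
        rw [← h5]; exact Set.mem_iUnion.2 ⟨i, p, hp, rfl⟩
      rw [← h3'] at hB
      obtain ⟨j, hj⟩ := Set.mem_iUnion.1 hB
      exact ⟨⟨i, j⟩, hp, _, hj, act_inv_act _ _⟩
  · rintro ⟨i, j⟩ ⟨i', j'⟩ hne
    rw [key, key]
    by_cases hj : j = j'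
    · subst hj
      have hi : i ≠ i' := fun hi => hne (by rw [hi])
      have h6 := h4 i i' hi
      rw [Set.eq_empty_iff_forall_notMem] at h6 ⊢
      rintro p ⟨⟨q, ⟨hq, _⟩, hqp⟩, ⟨q', ⟨hq', _⟩, hqp'⟩⟩
      have : q = q' := (act (h' j)).injective (hqp.trans hqp'.symm)
      subst this
      exact h6 q ⟨hq, hq'⟩
    · have h6 := h4' j j' hj
      rw [Set.eq_empty_iff_forall_notMem] at h6 ⊢
      rintro p ⟨⟨q, ⟨_, hq⟩, hqp⟩, ⟨q', ⟨_, hq'⟩, hqp'⟩⟩
      exact h6 p ⟨⟨q, hq, hqp⟩, ⟨q', hq', hqp'⟩⟩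
  · rw [← h5']
    ext p
    simp only [Set.mem_iUnion, key]
    constructor
    · rintro ⟨⟨i, j⟩, q, ⟨_, hq⟩, rfl⟩
      exact ⟨j, q, hq, rfl⟩
    · rintro ⟨j, q, hq, rfl⟩
      have hB : q ∈ B := by
        rw [← h3']; exact Set.mem_iUnion.2 ⟨j, hq⟩
      rw [← h5] at hB
      obtain ⟨i, hi⟩ := Set.mem_iUnion.1 hB
      exact ⟨⟨i, j⟩, q, ⟨hi, hq⟩, rfl⟩

theorem Equidec.union {𝒜 : InvAlgebra G X} {A B A' B' : Set (X × ℕ)} (h : Equidec 𝒜 A A')
    (h' : Equidec 𝒜 B B') (hd : A ∩ B = ∅) (hd' : A' ∩ B' = ∅) :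
    Equidec 𝒜 (A ∪ B) (A' ∪ B') := by
  obtain ⟨k, P, h, h1, h2, h3, h4, h5⟩ := h
  obtain ⟨k', P', h', h1', h2', h3', h4', h5'⟩ := h'
  have e1 : ∀ i j, P i ∩ P' j = ∅ := by
    intro i j
    rw [Set.eq_empty_iff_forall_notMem] at hd ⊢
    rintro p ⟨hp, hp'⟩
    exact hd p ⟨h3 ▸ Set.mem_iUnion.2 ⟨i, hp⟩, h3' ▸ Set.mem_iUnion.2 ⟨j, hp'⟩⟩
  have e2 : ∀ i j, act (h i) '' P i ∩ act (h' j) '' P' j = ∅ := by
    intro i j
    rw [Set.eq_empty_iff_forall_notMem] at hd' ⊢
    rintro p ⟨hp, hp'⟩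
    exact hd' p ⟨h5 ▸ Set.mem_iUnion.2 ⟨i, hp⟩, h5' ▸ Set.mem_iUnion.2 ⟨j, hp'⟩⟩
  refine Equidec.of_finite (ι := Fin k ⊕ Fin k') (Sum.elim P P') (Sum.elim h h') ?_ ?_ ?_ ?_ ?_
  · rintro (i | i)
    · exact h1 i
    · exact h1' i
  · rintro (i | i) (j | j) hij
    · exact h2 i j (fun e => hij (by rw [e]))
    · exact e1 i j
    · rw [Set.inter_comm]; exact e1 j i
    · exact h2' i j (fun e => hij (by rw [e]))
  · rw [Set.iUnion_sum, ← h3, ← h3']; rfl
  · rintro (i | i) (j | j) hij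
    · exact h4 i j (fun e => hij (by rw [e]))
    · exact e2 i j
    · rw [Set.inter_comm]; exact e2 j i
    · exact h4' i j (fun e => hij (by rw [e]))
  · rw [Set.iUnion_sum, ← h5, ← h5']; rfl

/-- a permutation of `ℕ` which is `m ↦ m + n` for `m < k` -/
theorem exists_perm (n k : ℕ) : ∃ π : Equiv.Perm ℕ, ∀ m < k, π m = m + n := by
  refine ⟨⟨fun m => if m < k then m + n else if m < k + n then m - k else m,
    fun m => if m < n then m + k else if m < k + n then m - n else m, ?_, ?_⟩, ?_⟩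
  · intro m
    simp only
    split_ifs <;> omega
  · intro m
    simp only
    split_ifs <;> omega
  · intro m hm
    simp [hm]

theorem Equidec.single {𝒜 : InvAlgebra G X} {A : Set (X × ℕ)} (hA : A ∈ Star 𝒜)
    (h : G × Equiv.Perm ℕ) : Equidec 𝒜 A (act h '' A) := by
  refine Equidec.of_finite (ι := Unit) (fun _ => A) (fun _ => h) (fun _ => hA) ?_ ?_ ?_ ?_
  · intro i j hij; exact absurd (Subsingleton.elim i j) hij
  · exact Set.iUnion_const _
  · intro i j hij; exact absurd (Subsingleton.elim i j) hij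
  · exact Set.iUnion_const _

theorem Equidec.shift {𝒜 : InvAlgebra G X} {A : Set (X × ℕ)} (hA : A ∈ Star 𝒜) (n : ℕ) :
    Equidec 𝒜 A (shift n A) := by
  obtain ⟨k, hk⟩ := (mem_star.1 hA).2
  obtain ⟨π, hπ⟩ := exists_perm n k
  have : CancellationFails.shift n A = act ((1 : G), π) '' A := by
    ext ⟨x, m⟩
    constructor
    · rintro ⟨j, hj, hx⟩
      refine ⟨(x, j), hx, ?_⟩
      simp only [act, Equiv.coe_fn_mk, one_smul, Prod.mk.injEq, true_and]
      rw [hπ j (hk _ hx)]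
      exact hj.symm
    · rintro ⟨⟨y, j⟩, hy, he⟩
      simp only [act, Equiv.coe_fn_mk, one_smul, Prod.mk.injEq] at he
      obtain ⟨rfl, rfl⟩ := he
      exact ⟨j, hπ j (hk _ hy), hy⟩
  rw [this]
  exact Equidec.single hA _

/-- Equidecomposability in `𝒜` as an equivalence relation on `𝒜^*`. -/
def typeSetoid (𝒜 : InvAlgebra G X) : Setoid (Star 𝒜) where
  r A B := Equidec 𝒜 A B
  iseqv := ⟨fun A => Equidec.refl A.2, fun h => h.symm, fun h h' => h.trans h'⟩

/-- The set `𝒮(𝒜)` of types. -/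
def TypeSemigroup (𝒜 : InvAlgebra G X) : Type v := Quotient (typeSetoid 𝒜)

/-- The number of levels of `A`: the least `n` with `A ⊆ X × {0, …, n - 1}`. -/
noncomputable def levels (A : Set (X × ℕ)) : ℕ := sInf {n | ∀ p ∈ A, p.2 < n}

theorem levels_spec {𝒜 : InvAlgebra G X} {A : Set (X × ℕ)} (hA : A ∈ Star 𝒜) :
    ∀ p ∈ A, p.2 < levels A := by
  obtain ⟨n, hn⟩ := (mem_star.1 hA).2
  exact Nat.sInf_mem (s := {n | ∀ p ∈ A, p.2 < n}) ⟨n, hn⟩

/-- `A ∪ B'`, where `B'` is `B` shifted upward so that its levels are disjoint from those of `A`. -/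
noncomputable def addSet (A B : Set (X × ℕ)) : Set (X × ℕ) := A ∪ shift (levels A) B

theorem addSet_disj {𝒜 : InvAlgebra G X} {A : Set (X × ℕ)} (hA : A ∈ Star 𝒜) (B : Set (X × ℕ)) :
    A ∩ shift (levels A) B = ∅ := by
  rw [Set.eq_empty_iff_forall_notMem]
  rintro ⟨x, m⟩ ⟨h1, j, hj, _⟩
  have := levels_spec hA _ h1
  simp only at this hj
  omega

theorem equidec_addSet {𝒜 : InvAlgebra G X} {A B A' B' : Set (X × ℕ)} (hA : A ∈ Star 𝒜)
    (hB : B ∈ Star 𝒜) (h : Equidec 𝒜 A A') (h' : Equidec 𝒜 B B') (hd : A' ∩ B' = ∅) :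
    Equidec 𝒜 (addSet A B) (A' ∪ B') :=
  Equidec.union h ((Equidec.shift hB _).symm.trans h') (addSet_disj hA B) hd

/-- Addition of types: `[A] + [B] = [A ∪ B']`, where `B'` is `B` shifted upward. -/
noncomputable def TypeSemigroup.add {𝒜 : InvAlgebra G X} :
    TypeSemigroup 𝒜 → TypeSemigroup 𝒜 → TypeSemigroup 𝒜 :=
  Quotient.map₂ (fun A B => ⟨addSet A.1 B.1, star_union A.2 (star_shift _ B.2)⟩) (by
    rintro ⟨A, hA⟩ ⟨A', hA'⟩ h ⟨B, hB⟩ ⟨B', hB'⟩ h'
    exact equidec_addSet hA hB h (h'.trans (Equidec.shift hB' _)) (addSet_disj hA' B'))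

/-- the type `[A]` -/
def ty {𝒜 : InvAlgebra G X} (A : Set (X × ℕ)) (hA : A ∈ Star 𝒜) : TypeSemigroup 𝒜 :=
  Quotient.mk (typeSetoid 𝒜) ⟨A, hA⟩

theorem ty_eq {𝒜 : InvAlgebra G X} {A B : Set (X × ℕ)} (hA : A ∈ Star 𝒜) (hB : B ∈ Star 𝒜) :
    ty A hA = ty B hB ↔ Equidec 𝒜 A B :=
  ⟨fun h => Quotient.exact h, fun h => Quotient.sound h⟩

theorem add_ty {𝒜 : InvAlgebra G X} {A B : Set (X × ℕ)} (hA : A ∈ Star 𝒜) (hB : B ∈ Star 𝒜)
    {C : Set (X × ℕ)} (hC : C ∈ Star 𝒜) {A' B' : Set (X × ℕ)} (h : Equidec 𝒜 A A')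
    (h' : Equidec 𝒜 B B') (hd : A' ∩ B' = ∅) (he : C = A' ∪ B') :
    TypeSemigroup.add (ty A hA) (ty B hB) = ty C hC := by
  subst he
  exact Quotient.sound (equidec_addSet hA hB h h' hd)

theorem star_empty {𝒜 : InvAlgebra G X} : (∅ : Set (X × ℕ)) ∈ Star 𝒜 := by
  rw [mem_star]
  exact ⟨fun m => 𝒜.empty_mem, 0, by simp⟩

theorem Equidec.star {𝒜 : InvAlgebra G X} {A B : Set (X × ℕ)} (hA : A ∈ Star 𝒜)
    (h : Equidec 𝒜 A B) : B ∈ Star 𝒜 := by
  obtain ⟨k, P, h, h1, h2, h3, h4, rfl⟩ := h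
  have : ∀ n : ℕ, ∀ Q : Fin n → Set (X × ℕ), (∀ i, Q i ∈ Star 𝒜) → (⋃ i, Q i) ∈ Star 𝒜 := by
    intro n
    induction n with
    | zero => intro Q _; simpa using star_empty
    | succ n ih =>
      intro Q hQ
      have : (⋃ i, Q i) = Q 0 ∪ ⋃ i : Fin n, Q i.succ := by
        ext p
        simp only [Set.mem_iUnion, Set.mem_union]
        exact Fin.exists_fin_succ
      rw [this]
      exact star_union (hQ 0) (ih _ fun i => hQ _)
  exact this k _ fun i => star_act _ (h1 i)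

noncomputable instance (𝒜 : InvAlgebra G X) : Add (TypeSemigroup 𝒜) := ⟨TypeSemigroup.add⟩

instance (𝒜 : InvAlgebra G X) : Zero (TypeSemigroup 𝒜) := ⟨ty ∅ star_empty⟩

/-- The types form a commutative semigroup (with the type of the empty set as zero). -/
noncomputable instance (𝒜 : InvAlgebra G X) : AddCommMonoid (TypeSemigroup 𝒜) where
  add_assoc := by
    rintro ⟨A, hA⟩ ⟨B, hB⟩ ⟨C, hC⟩
    have h1 := star_shift (levels A) hB
    have hAB : A ∪ CancellationFails.shift (levels A) B ∈ Star 𝒜 := star_union hA h1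
    have hBC : B ∪ CancellationFails.shift (levels B) C ∈ Star 𝒜 := star_union hB (star_shift _ hC)
    have h2 := star_shift (levels (addSet A B)) hC
    have d1 := addSet_disj hA B
    have d2 := addSet_disj hAB C
    have d3 : A ∩ CancellationFails.shift (levels (addSet A B)) C = ∅ := by
      rw [Set.eq_empty_iff_forall_notMem] at d2 ⊢
      exact fun p hp => d2 p ⟨Or.inl hp.1, hp.2⟩
    have d4 : CancellationFails.shift (levels A) B ∩
        CancellationFails.shift (levels (addSet A B)) C = ∅ := by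
      rw [Set.eq_empty_iff_forall_notMem] at d2 ⊢
      exact fun p hp => d2 p ⟨Or.inr hp.1, hp.2⟩
    have e1 : TypeSemigroup.add (TypeSemigroup.add (ty A hA) (ty B hB)) (ty C hC) =
        ty (A ∪ CancellationFails.shift (levels A) B ∪
          CancellationFails.shift (levels (addSet A B)) C) (star_union hAB h2) := by
      rw [add_ty hA hB hAB (Equidec.refl hA) (Equidec.shift hB _) d1 rfl]
      exact add_ty hAB hC _ (Equidec.refl hAB) (Equidec.shift hC _) d2 rfl
    have e2 : TypeSemigroup.add (ty A hA) (TypeSemigroup.add (ty B hB) (ty C hC)) =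
        ty (A ∪ CancellationFails.shift (levels A) B ∪
          CancellationFails.shift (levels (addSet A B)) C) (star_union hAB h2) := by
      rw [add_ty hB hC (star_union h1 h2) (Equidec.shift hB _) (Equidec.shift hC _) d4 rfl]
      refine add_ty hA _ _ (Equidec.refl hA) (Equidec.refl (star_union h1 h2)) ?_
        (Set.union_assoc _ _ _)
      rw [Set.inter_union_distrib_left, d1, d3, Set.union_empty]
    exact e1.trans e2.symm
  add_comm := by
    rintro ⟨A, hA⟩ ⟨B, hB⟩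
    have hAB : A ∪ CancellationFails.shift (levels A) B ∈ Star 𝒜 :=
      star_union hA (star_shift _ hB)
    have e1 : TypeSemigroup.add (ty A hA) (ty B hB) = ty _ hAB :=
      add_ty hA hB hAB (Equidec.refl hA) (Equidec.shift hB _) (addSet_disj hA B) rfl
    have e2 : TypeSemigroup.add (ty B hB) (ty A hA) = ty _ hAB :=
      add_ty hB hA hAB (Equidec.shift hB _) (Equidec.refl hA)
        (by rw [Set.inter_comm]; exact addSet_disj hA B) (Set.union_comm _ _)
    exact e1.trans e2.symm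
  zero_add := by
    rintro ⟨A, hA⟩
    exact add_ty star_empty hA hA (Equidec.refl star_empty) (Equidec.refl hA)
      (Set.empty_inter _) (Set.empty_union _).symm
  add_zero := by
    rintro ⟨A, hA⟩
    exact add_ty hA star_empty hA (Equidec.refl hA) (Equidec.refl star_empty)
      (Set.inter_empty _) (Set.union_empty _).symm
  nsmul := nsmulRec

/-- The cancellation law in `𝒮(𝒜)`. -/
def CancellationLaw (𝒜 : InvAlgebra G X) : Prop :=
  ∀ n : ℕ, 1 ≤ n → ∀ α β : TypeSemigroup 𝒜, n • α = n • β → α = β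

end Defs

/-! ## Multiplicity functions -/

section Count

variable {G : Type u} {X : Type v} [Group G] [MulAction G X] [MeasurableSpace X]

/-- the number of levels of `A` over `x` -/
noncomputable def cnt (A : Set (X × ℕ)) (x : X) : ℤ := ({m | (x, m) ∈ A} : Set ℕ).ncard

theorem fiber_finite {𝒜 : InvAlgebra G X} {A : Set (X × ℕ)} (hA : A ∈ Star 𝒜) (x : X) :
    ({m | (x, m) ∈ A} : Set ℕ).Finite := by
  obtain ⟨n, hn⟩ := (mem_star.1 hA).2
  exact (Set.finite_lt_nat n).subset fun m hm => hn _ hm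

theorem cnt_iUnion {𝒜 : InvAlgebra G X} {k : ℕ} (P : Fin k → Set (X × ℕ))
    (h1 : ∀ i, P i ∈ Star 𝒜) (h2 : ∀ i j, i ≠ j → P i ∩ P j = ∅) :
    cnt (⋃ i, P i) = ∑ i, cnt (P i) := by
  funext x
  rw [Finset.sum_apply]
  unfold cnt
  have : ({m | (x, m) ∈ ⋃ i, P i} : Set ℕ) = ⋃ i, {m | (x, m) ∈ P i} := by
    ext m; simp
  rw [this]
  have h3 := Set.ncard_iUnion_of_finite (s := fun i => ({m | (x, m) ∈ P i} : Set ℕ))
    (fun i => fiber_finite (h1 i) x) (by
      intro i j hij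
      rw [Function.onFun, Set.disjoint_iff_inter_eq_empty, Set.eq_empty_iff_forall_notMem]
      intro m hm
      have h4 := h2 i j hij
      rw [Set.eq_empty_iff_forall_notMem] at h4
      exact h4 (x, m) hm)
  rw [h3, finsum_eq_sum_of_fintype]
  push_cast
  rfl

theorem cnt_act (h : G × Equiv.Perm ℕ) (A : Set (X × ℕ)) :
    cnt (act h '' A) = fun x => cnt A (h.1⁻¹ • x) := by
  funext x
  unfold cnt
  have : ({m | (x, m) ∈ act h '' A} : Set ℕ) = h.2 '' {m | (h.1⁻¹ • x, m) ∈ A} := by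
    ext m
    constructor
    · rintro ⟨⟨y, j⟩, hy, he⟩
      simp only [act, Equiv.coe_fn_mk, Prod.mk.injEq] at he
      obtain ⟨rfl, rfl⟩ := he
      exact ⟨j, by simpa using hy, rfl⟩
    · rintro ⟨j, hj, rfl⟩
      exact ⟨(h.1⁻¹ • x, j), hj, by simp [act]⟩
  rw [this, Set.ncard_image_of_injective _ h.2.injective]

/-- the set of functions `u + v` with `u`, `v` measurable, `u ∘ b = -u`, `v ∘ c = -v` -/
def Anti (b c : X → X) : AddSubgroup (X → ℤ) where
  carrier := {f | ∃ u v : X → ℤ, Measurable u ∧ Measurable v ∧ (∀ x, u (b x) = - u x) ∧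
    (∀ x, v (c x) = - v x) ∧ f = u + v}
  zero_mem' := ⟨0, 0, measurable_zero, measurable_zero, by simp, by simp, by simp⟩
  add_mem' := by
    rintro _ _ ⟨u, v, h1, h2, h3, h4, rfl⟩ ⟨u', v', h1', h2', h3', h4', rfl⟩
    refine ⟨u + u', v + v', h1.add h1', h2.add h2', ?_, ?_, by abel⟩
    · intro x; simp only [Pi.add_apply, h3, h3']; ring
    · intro x; simp only [Pi.add_apply, h4, h4']; ring
  neg_mem' := by
    rintro _ ⟨u, v, h1, h2, h3, h4, rfl⟩
    refine ⟨-u, -v, h1.neg, h2.neg, ?_, ?_, by abel⟩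
    · intro x; simp only [Pi.neg_apply, h3]
    · intro x; simp only [Pi.neg_apply, h4]

end Count

/-! ## Groups generated by two involutions -/

section Dih

variable {X : Type v} [MeasurableSpace X] {b c : Equiv.Perm X}

/-- what we need about the elements of the group -/
def Nice (b c g : Equiv.Perm X) : Prop :=
  (∀ f : X → ℤ, Measurable f → Measurable (f ∘ g) ∧ f ∘ g - f ∈ Anti b c) ∧
  (∀ A : Set X, MeasurableSet A → MeasurableSet (g '' A))

theorem nice_b (hb : Measurable b) (hbb : ∀ x, b (b x) = x) : Nice b c b := by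
  refine ⟨fun f hf => ⟨hf.comp hb, f ∘ b - f, 0, (hf.comp hb).sub hf, measurable_zero, ?_, by simp,
    by simp⟩, fun A hA => ?_⟩
  · intro x
    simp [hbb]
  · have : b '' A = b ⁻¹' A := by
      ext x
      constructor
      · rintro ⟨y, hy, rfl⟩; simpa [hbb] using hy
      · intro hx; exact ⟨b x, hx, hbb x⟩
    rw [this]; exact hb hA

theorem nice_c (hc : Measurable c) (hcc : ∀ x, c (c x) = x) : Nice b c c := by
  refine ⟨fun f hf => ⟨hf.comp hc, 0, f ∘ c - f, measurable_zero, (hf.comp hc).sub hf, by simp, ?_,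
    by simp⟩, fun A hA => ?_⟩
  · intro x
    simp [hcc]
  · have : c '' A = c ⁻¹' A := by
      ext x
      constructor
      · rintro ⟨y, hy, rfl⟩; simpa [hcc] using hy
      · intro hx; exact ⟨c x, hx, hcc x⟩
    rw [this]; exact hc hA

theorem Nice.mul {g h : Equiv.Perm X} (hg : Nice b c g) (hh : Nice b c h) : Nice b c (g * h) := by
  refine ⟨fun f hf => ?_, fun A hA => ?_⟩
  · have h1 := hg.1 f hf
    have h2 := hh.1 _ h1.1
    have e : f ∘ (g * h : Equiv.Perm X) = (f ∘ g) ∘ h := rfl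
    rw [e]
    refine ⟨h2.1, ?_⟩
    have : (f ∘ g) ∘ h - f = ((f ∘ g) ∘ h - f ∘ g) + (f ∘ g - f) := by abel
    rw [this]
    exact add_mem h2.2 h1.2
  · have : (g * h : Equiv.Perm X) '' A = g '' (h '' A) := by
      rw [← Set.image_comp]; rfl
    rw [this]
    exact hg.2 _ (hh.2 _ hA)

theorem nice_one : Nice b c 1 := by
  refine ⟨fun f hf => ⟨hf, ?_⟩, fun A hA => ?_⟩
  · have : f ∘ (1 : Equiv.Perm X) - f = 0 := by
      funext x; simp
    rw [this]; exact zero_mem _
  · simpa using hA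

theorem nice_of_mem (hb : Measurable b) (hbb : ∀ x, b (b x) = x) (hc : Measurable c)
    (hcc : ∀ x, c (c x) = x) {g : Equiv.Perm X} (hg : g ∈ Subgroup.closure {b, c}) :
    Nice b c g ∧ Nice b c g⁻¹ := by
  have hb1 : b⁻¹ = b := by
    rw [inv_eq_iff_mul_eq_one]; ext x; simp [hbb]
  have hc1 : c⁻¹ = c := by
    rw [inv_eq_iff_mul_eq_one]; ext x; simp [hcc]
  induction hg using Subgroup.closure_induction with
  | mem x hx =>
    rcases hx with rfl | hx
    · rw [hb1]; exact ⟨nice_b hb hbb, nice_b hb hbb⟩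
    · rw [Set.mem_singleton_iff] at hx
      subst hx
      rw [hc1]; exact ⟨nice_c hc hcc, nice_c hc hcc⟩
  | one => rw [inv_one]; exact ⟨nice_one, nice_one⟩
  | mul x y _ _ hx hy => rw [mul_inv_rev]; exact ⟨hx.1.mul hy.1, hy.2.mul hx.2⟩
  | inv x _ hx => rw [inv_inv]; exact hx.symm

/-- The measurable subsets of `X`, as an algebra of sets which is invariant under the group
generated by the two measurable involutions `b` and `c`. -/
def measAlg (hb : Measurable b) (hbb : ∀ x, b (b x) = x) (hc : Measurable c)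
    (hcc : ∀ x, c (c x) = x) : InvAlgebra (Subgroup.closure ({b, c} : Set (Equiv.Perm X))) X where
  sets := {A | MeasurableSet A}
  empty_mem := MeasurableSet.empty
  univ_mem := MeasurableSet.univ
  union_mem _ hA _ hB := MeasurableSet.union hA hB
  inter_mem _ hA _ hB := MeasurableSet.inter hA hB
  compl_mem _ hA := MeasurableSet.compl hA
  image_mem g A hA := (nice_of_mem hb hbb hc hcc g.2).1.2 A hA

/-- `P` on the level `0` -/
def lvl (P : Set X) : Set (X × ℕ) := {p | p.1 ∈ P ∧ p.2 = 0}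

theorem lvl_star {G : Type u} [Group G] [MulAction G X] {𝒜 : InvAlgebra G X} {P : Set X}
    (hP : P ∈ 𝒜.sets) : lvl P ∈ Star 𝒜 := by
  refine ⟨1, fun _ => P, fun _ _ => hP, ?_⟩
  ext ⟨x, m⟩
  simp only [lvl, Set.mem_setOf_eq]
  constructor
  · rintro ⟨h1, h2⟩; exact ⟨by omega, h1⟩
  · rintro ⟨h1, h2⟩; exact ⟨h2, by omega⟩

theorem cnt_lvl (P : Set X) (x : X) : (x ∈ P → cnt (lvl P) x = 1) ∧ (x ∉ P → cnt (lvl P) x = 0) := by
  constructor
  · intro hx
    have : ({m | (x, m) ∈ lvl P} : Set ℕ) = {0} := by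
      ext m; simp [lvl, hx]
    simp [cnt, this]
  · intro hx
    have : ({m | (x, m) ∈ lvl P} : Set ℕ) = ∅ := by
      ext m; simp [lvl, hx]
    simp [cnt, this]

theorem cnt_measurable (hb : Measurable b) (hbb : ∀ x, b (b x) = x) (hc : Measurable c)
    (hcc : ∀ x, c (c x) = x) {A : Set (X × ℕ)} (hA : A ∈ Star (measAlg hb hbb hc hcc)) :
    Measurable (cnt A) := by
  classical
  obtain ⟨h1, n, hn⟩ := mem_star.1 hA
  have : cnt A = fun x => ∑ m ∈ Finset.range n, if (x, m) ∈ A then (1 : ℤ) else 0 := by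
    funext x
    unfold cnt
    have e : ({m | (x, m) ∈ A} : Set ℕ) = ((Finset.range n).filter fun m => (x, m) ∈ A : Finset ℕ) := by
      ext m
      simp only [Set.mem_setOf_eq, Finset.coe_filter, Finset.mem_range]
      exact ⟨fun h => ⟨hn _ h, h⟩, fun h => h.2⟩
    rw [e, Set.ncard_coe_finset, Finset.card_filter]
    push_cast
    rfl
  rw [this]
  refine Finset.measurable_sum _ fun m _ => ?_
  exact Measurable.ite (h1 m) measurable_const measurable_const

theorem equidec_anti (hb : Measurable b) (hbb : ∀ x, b (b x) = x) (hc : Measurable c)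
    (hcc : ∀ x, c (c x) = x) {A B : Set (X × ℕ)} (h : Equidec (measAlg hb hbb hc hcc) A B) :
    cnt B - cnt A ∈ Anti b c := by
  obtain ⟨k, P, h, h1, h2, rfl, h4, rfl⟩ := h
  rw [cnt_iUnion P h1 h2, cnt_iUnion _ (fun i => star_act (h i) (h1 i)) h4,
    ← Finset.sum_sub_distrib]
  refine sum_mem fun i _ => ?_
  rw [cnt_act]
  exact ((nice_of_mem hb hbb hc hcc (h i).1.2).2.1 _ (cnt_measurable hb hbb hc hcc (h1 i))).2

/-- If two halves are equidecomposable, there is a common half. -/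
theorem criterion (hb : Measurable b) (hbb : ∀ x, b (b x) = x) (hc : Measurable c)
    (hcc : ∀ x, c (c x) = x) {P Q : Set X} (hPb : ∀ x, b x ∈ P ↔ x ∉ P)
    (hQc : ∀ x, c x ∈ Q ↔ x ∉ Q) (h : Equidec (measAlg hb hbb hc hcc) (lvl Q) (lvl P))
    (hP : MeasurableSet P) :
    ∃ W : Set X, MeasurableSet W ∧ (∀ x, b x ∈ W ↔ x ∉ W) ∧ ∀ x, c x ∈ W ↔ x ∉ W := by
  obtain ⟨u, v, hu, hv, hub, hvc, he⟩ := equidec_anti hb hbb hc hcc h
  have hcP : Measurable (cnt (lvl P)) := cnt_measurable hb hbb hc hcc (lvl_star hP)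
  set w : X → ℤ := fun x => 2 * cnt (lvl P) x - 1 - 2 * u x with hw
  have hwm : Measurable w := ((hcP.const_mul 2).sub_const 1).sub (hu.const_mul 2)
  have hw2 : ∀ x, w x = 2 * cnt (lvl Q) x - 1 + 2 * v x := by
    intro x
    have := congrFun he x
    simp only [Pi.sub_apply, Pi.add_apply] at this
    simp only [hw]
    linarith
  have hwb : ∀ x, w (b x) = - w x := by
    intro x
    simp only [hw, hub]
    by_cases hx : x ∈ P
    · have h1 : b x ∉ P := fun h => (hPb x).1 h hx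
      rw [(cnt_lvl P x).1 hx, (cnt_lvl P (b x)).2 h1]; ring
    · have h1 : b x ∈ P := (hPb x).2 hx
      rw [(cnt_lvl P x).2 hx, (cnt_lvl P (b x)).1 h1]; ring
  have hwc : ∀ x, w (c x) = - w x := by
    intro x
    rw [hw2, hw2, hvc]
    by_cases hx : x ∈ Q
    · have h1 : c x ∉ Q := fun h => (hQc x).1 h hx
      rw [(cnt_lvl Q x).1 hx, (cnt_lvl Q (c x)).2 h1]; ring
    · have h1 : c x ∈ Q := (hQc x).2 hx
      rw [(cnt_lvl Q x).2 hx, (cnt_lvl Q (c x)).1 h1]; ring
  have hodd : ∀ x, w x ≠ 0 := by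
    intro x h0
    simp only [hw] at h0
    omega
  refine ⟨{x | 0 < w x}, hwm measurableSet_Ioi, ?_, ?_⟩
  · intro x
    have := hodd x
    simp only [Set.mem_setOf_eq, hwb]
    omega
  · intro x
    have := hodd x
    simp only [Set.mem_setOf_eq, hwc]
    omega

/-- twice a half is everything -/
theorem two_half {𝒜 : InvAlgebra (Subgroup.closure ({b, c} : Set (Equiv.Perm X))) X}
    {P : Set X} (hP : P ∈ 𝒜.sets) (g : Subgroup.closure ({b, c} : Set (Equiv.Perm X)))
    (hgg : ∀ x : X, g • g • x = x) (hPg : ∀ x : X, g • x ∈ P ↔ x ∉ P) :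
    2 • ty (lvl P) (lvl_star hP) = ty (lvl Set.univ) (lvl_star 𝒜.univ_mem) := by
  rw [two_nsmul]
  refine add_ty (lvl_star hP) (lvl_star hP) _ (Equidec.refl (lvl_star hP))
    (Equidec.single (lvl_star hP) (g, 1)) ?_ ?_
  · rw [Set.eq_empty_iff_forall_notMem]
    rintro ⟨x, m⟩ ⟨h1, ⟨y, j⟩, h2, h3⟩
    simp only [act, Equiv.coe_fn_mk, Prod.mk.injEq] at h3
    obtain ⟨rfl, rfl⟩ := h3
    exact (hPg y).1 h1.1 h2.1
  · ext ⟨x, m⟩
    constructor
    · rintro ⟨-, hm⟩
      by_cases hx : x ∈ P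
      · exact Or.inl ⟨hx, hm⟩
      · refine Or.inr ⟨(g • x, m), ⟨(hPg x).2 hx, hm⟩, ?_⟩
        simp [act, hgg]
    · rintro (h | ⟨⟨y, j⟩, h2, h3⟩)
      · exact ⟨trivial, h.2⟩
      · simp only [act, Equiv.coe_fn_mk, Prod.mk.injEq] at h3
        obtain ⟨rfl, rfl⟩ := h3
        exact ⟨trivial, h2.2⟩

end Dih

/-! ## Two reflections of the circle -/

section Circle

open MeasureTheory

theorem coe_eq_iff (s t : ℝ) : (s : UnitAddCircle) = t ↔ ∃ n : ℤ, s - t = n := by
  rw [← sub_eq_zero, ← AddCircle.coe_sub, AddCircle.coe_eq_zero_iff]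
  simp only [zsmul_eq_mul, mul_one]
  exact ⟨fun ⟨n, hn⟩ => ⟨n, hn.symm⟩, fun ⟨n, hn⟩ => ⟨n, hn.symm⟩⟩

/-- an open half of the circle -/
def half : Set UnitAddCircle := (fun t : ℝ => (t : UnitAddCircle)) '' Set.Ioo 0 (1 / 2)

theorem half_meas : MeasurableSet half :=
  (QuotientAddGroup.isOpenMap_coe _ isOpen_Ioo).measurableSet

theorem neg_mem_half (y : UnitAddCircle) (hy : ∀ k : ℤ, y ≠ ((k / 2 : ℝ) : UnitAddCircle)) :
    -y ∈ half ↔ y ∉ half := by
  obtain ⟨t, rfl⟩ := QuotientAddGroup.mk_surjective y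
  change -(t : UnitAddCircle) ∈ half ↔ (t : UnitAddCircle) ∉ half
  have h1 : (t : UnitAddCircle) = ((Int.fract t : ℝ) : UnitAddCircle) := by
    rw [coe_eq_iff]; exact ⟨⌊t⌋, Int.self_sub_fract t⟩
  rw [h1]
  have h0 : Int.fract t ≠ 0 := by
    intro h
    refine hy 0 ?_
    change (t : UnitAddCircle) = _
    rw [h1, h]; simp
  have h2 : Int.fract t ≠ 1 / 2 := by
    intro h
    refine hy 1 ?_
    change (t : UnitAddCircle) = _
    rw [h1, h]; simp
  have h3 := Int.fract_nonneg t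
  have h4 := Int.fract_lt_one t
  set s := Int.fract t
  have h5 : 0 < s := lt_of_le_of_ne h3 (Ne.symm h0)
  constructor
  · rintro ⟨r, hr, hr2⟩ ⟨r', hr', hr2'⟩
    simp only [Set.mem_Ioo] at hr hr'
    have h6 : ((r + r' : ℝ) : UnitAddCircle) = ((0 : ℝ) : UnitAddCircle) := by
      rw [AddCircle.coe_add]
      simp only at hr2 hr2'
      rw [hr2, hr2']; simp
    obtain ⟨n, hn⟩ := (coe_eq_iff _ _).1 h6
    have h7 : (0 : ℝ) < n := by linarith [hr.1, hr'.1]
    have h8 : (n : ℝ) < 1 := by linarith [hr.2, hr'.2]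
    have h9 : (0 : ℤ) < n := by exact_mod_cast h7
    have h10 : n < (1 : ℤ) := by exact_mod_cast h8
    omega
  · intro h
    rcases lt_or_gt_of_ne h2 with h6 | h6
    · exact absurd ⟨s, ⟨h5, h6⟩, rfl⟩ h
    · refine ⟨1 - s, ⟨by linarith, by linarith⟩, ?_⟩
      rw [← AddCircle.coe_neg, coe_eq_iff]
      exact ⟨1, by push_cast; ring⟩

/-- the points which are removed: they are the points `x` with `2 x = n a` for some integer `n` -/
def bad (α : ℝ) : Set UnitAddCircle :=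
  Set.range fun p : ℤ × ℤ => (((p.1 * α + p.2) / 2 : ℝ) : UnitAddCircle)

theorem bad_countable (α : ℝ) : (bad α).Countable := Set.countable_range _

theorem neg_bad {α : ℝ} {x : UnitAddCircle} (hx : x ∈ bad α) : -x ∈ bad α := by
  obtain ⟨⟨n, k⟩, rfl⟩ := hx
  refine ⟨(-n, -k), ?_⟩
  rw [← AddCircle.coe_neg, coe_eq_iff]
  exact ⟨0, by push_cast; ring⟩

theorem sub_bad {α : ℝ} {x : UnitAddCircle} (hx : x ∈ bad α) : (α : UnitAddCircle) - x ∈ bad α := by
  obtain ⟨⟨n, k⟩, rfl⟩ := hx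
  refine ⟨(2 - n, -k), ?_⟩
  rw [← AddCircle.coe_sub, coe_eq_iff]
  exact ⟨0, by push_cast; ring⟩

theorem add_bad {α : ℝ} {x : UnitAddCircle} (hx : x ∈ bad α) : x + (α : UnitAddCircle) ∈ bad α := by
  have := sub_bad (neg_bad hx)
  rwa [sub_neg_eq_add, add_comm] at this

theorem sub_bad' {α : ℝ} {x : UnitAddCircle} (hx : x ∈ bad α) : x - (α : UnitAddCircle) ∈ bad α := by
  have := neg_bad (sub_bad hx)
  rwa [neg_sub] at this

/-- The circle without the countable set `bad α`. -/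
abbrev Circ (α : ℝ) : Type := {x : UnitAddCircle // x ∉ bad α}

theorem bad_null (α : ℝ) : volume (bad α) = 0 := by
  have : NullSingletonClass (volume : Measure UnitAddCircle) := by
    constructor
    intro x
    have h := AddCircle.volume_closedBall (T := 1) (x := x) 0
    rw [Metric.closedBall_zero] at h
    rw [h]
    simp
  exact (bad_countable α).measure_zero _

theorem bb_aux {α : ℝ} : Function.Involutive
    (fun x : Circ α => (⟨-x.1, fun h => x.2 (by simpa using neg_bad h)⟩ : Circ α)) :=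
  fun x => Subtype.ext (neg_neg x.1)

theorem cc_aux {α : ℝ} : Function.Involutive
    (fun x : Circ α => (⟨(α : UnitAddCircle) - x.1,
      fun h => x.2 (by simpa using sub_bad h)⟩ : Circ α)) :=
  fun x => Subtype.ext (sub_sub_cancel _ x.1)

/-- the reflection `x ↦ -x` -/
def bb (α : ℝ) : Equiv.Perm (Circ α) := bb_aux.toPerm

/-- the reflection `x ↦ a - x` -/
def cc (α : ℝ) : Equiv.Perm (Circ α) := cc_aux.toPerm

theorem bb_val {α : ℝ} (x : Circ α) : (bb α x).1 = -x.1 := rfl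

theorem cc_val {α : ℝ} (x : Circ α) : (cc α x).1 = α - x.1 := rfl

theorem bb_bb {α : ℝ} (x : Circ α) : bb α (bb α x) = x := bb_aux x

theorem cc_cc {α : ℝ} (x : Circ α) : cc α (cc α x) = x := cc_aux x

theorem bb_meas (α : ℝ) : Measurable (bb α) :=
  Measurable.subtype_mk (measurable_subtype_coe.neg)

theorem cc_meas (α : ℝ) : Measurable (cc α) :=
  Measurable.subtype_mk (measurable_subtype_coe.const_sub _)

theorem no_common_half {α : ℝ} (hα : Irrational α) {W : Set (Circ α)} (hW : MeasurableSet W)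
    (hb : ∀ x, bb α x ∈ W ↔ x ∉ W) (hc : ∀ x, cc α x ∈ W ↔ x ∉ W) : False := by
  have hbadm : MeasurableSet (bad α) := (bad_countable α).measurableSet
  set V : Set UnitAddCircle := (fun x : Circ α => x.1) '' W with hV
  have hVm : MeasurableSet V := (MeasurableEmbedding.subtype_coe hbadm.compl).measurableSet_image' hW
  have hinv : (fun x => x + (α : UnitAddCircle)) ⁻¹' V = V := by
    ext x
    by_cases hx : x ∈ bad α
    · constructor
      · rintro ⟨y, _, hy⟩
        have hy' : y.1 = x + (α : UnitAddCircle) := hy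
        exact absurd (hy' ▸ add_bad hx) y.2
      · rintro ⟨y, _, hy⟩
        have hy' : y.1 = x := hy
        exact absurd (hy' ▸ hx) y.2
    · have e : cc α (bb α ⟨x, hx⟩) = ⟨x + (α : UnitAddCircle), fun h => hx (by
          simpa using sub_bad' h)⟩ := by
        apply Subtype.ext
        rw [cc_val, bb_val]
        simp only
        abel
      have h1 : x + (α : UnitAddCircle) ∈ V ↔ cc α (bb α ⟨x, hx⟩) ∈ W := by
        rw [e]
        constructor
        · rintro ⟨y, hy, hy2⟩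
          have : y = ⟨x + (α : UnitAddCircle), fun h => hx (by simpa using sub_bad' h)⟩ :=
            Subtype.ext hy2
          rwa [← this]
        · intro h; exact ⟨_, h, rfl⟩
      have h2 : x ∈ V ↔ (⟨x, hx⟩ : Circ α) ∈ W := by
        constructor
        · rintro ⟨y, hy, hy2⟩
          have : y = ⟨x, hx⟩ := Subtype.ext hy2
          rwa [← this]
        · intro h; exact ⟨_, h, rfl⟩
      rw [Set.mem_preimage, h1, hc, hb, h2, not_not]
  have herg : Ergodic (fun x : UnitAddCircle => x + (α : UnitAddCircle)) volume := by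
    rw [AddCircle.ergodic_add_right, addOrderOf_eq_zero_iff']
    intro n hn h
    rw [← AddCircle.coe_nsmul, AddCircle.coe_eq_zero_iff] at h
    obtain ⟨m, hm⟩ := h
    simp only [zsmul_eq_mul, mul_one, nsmul_eq_mul] at hm
    refine hα ⟨(m : ℚ) / (n : ℚ), ?_⟩
    have : (n : ℝ) ≠ 0 := by exact_mod_cast hn.ne'
    push_cast
    field_simp
    linarith
  have hneg : volume (-V) = volume V := Measure.measure_neg _ _
  have hcover : Set.univ ⊆ V ∪ (-V ∪ bad α) := by
    intro x _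
    by_cases hx : x ∈ bad α
    · exact Or.inr (Or.inr hx)
    · by_cases h : (⟨x, hx⟩ : Circ α) ∈ W
      · exact Or.inl ⟨_, h, rfl⟩
      · refine Or.inr (Or.inl ?_)
        exact ⟨_, (hb _).2 h, rfl⟩
  have hsub : -V ⊆ Vᶜ := by
    rintro x ⟨y, hy, hy2⟩ ⟨z, hz, hz2⟩
    have : bb α y = z := by
      apply Subtype.ext
      rw [bb_val]
      simp only at hy2 hz2
      rw [hy2, hz2, neg_neg]
    exact (hb y).1 (this ▸ hz) hy
  have hbad0 : volume (bad α) = 0 := bad_null α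
  have hV0 : volume V = 0 := by
    rcases herg.toPreErgodic.measure_self_or_compl_eq_zero hVm hinv with h | h
    · exact h
    · rw [← hneg]; exact measure_mono_null hsub h
  have : volume (Set.univ : Set UnitAddCircle) = 0 := by
    refine measure_mono_null hcover ?_
    rw [measure_union_null_iff, measure_union_null_iff]
    exact ⟨hV0, by rw [hneg]; exact hV0, hbad0⟩
  rw [UnitAddCircle.measure_univ] at this
  exact one_ne_zero this

/-- Without restriction on the pieces there is a common half. -/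
theorem common_half (α : ℝ) : ∃ W : Set (Circ α), (∀ x, bb α x ∈ W ↔ x ∉ W) ∧
    ∀ x, cc α x ∈ W ↔ x ∉ W := by
  let a : UnitAddCircle := (α : UnitAddCircle)
  let S : Setoid (Circ α) :=
    { r := fun x y => (∃ n : ℤ, y.1 = x.1 + n • a) ∨ ∃ n : ℤ, y.1 = -x.1 + n • a
      iseqv := by
        refine ⟨fun x => Or.inl ⟨0, by simp⟩, ?_, ?_⟩
        · rintro x y (⟨n, h⟩ | ⟨n, h⟩)
          · exact Or.inl ⟨-n, by rw [h]; simp⟩
          · exact Or.inr ⟨n, by rw [h]; simp⟩
        · rintro x y z (⟨n, h⟩ | ⟨n, h⟩) (⟨m, h'⟩ | ⟨m, h'⟩)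
          · exact Or.inl ⟨n + m, by rw [h', h, add_zsmul]; abel⟩
          · exact Or.inr ⟨-n + m, by rw [h', h, add_zsmul, neg_zsmul]; abel⟩
          · exact Or.inr ⟨n + m, by rw [h', h, add_zsmul]; abel⟩
          · exact Or.inl ⟨-n + m, by rw [h', h, add_zsmul, neg_zsmul]; abel⟩ }
  let r : Circ α → Circ α := fun x => (Quotient.mk S x).out
  have hr : ∀ x, S x (r x) := fun x => S.symm (Quotient.exact (Quotient.out_eq (Quotient.mk S x)))
  have hrr : ∀ x y, S x y → r x = r y := fun x y h => by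
    have : Quotient.mk S x = Quotient.mk S y := Quotient.sound h
    simp only [r, this]
  have hb : ∀ x, S x (bb α x) := fun x => Or.inr ⟨0, by rw [bb_val]; simp⟩
  have hc : ∀ x, S x (cc α x) := fun x => Or.inr ⟨1, by
    rw [cc_val, one_zsmul]; show (α : UnitAddCircle) - x.1 = -x.1 + (α : UnitAddCircle); abel⟩
  have key : ∀ x, (∃ n : ℤ, x.1 = -(r x).1 + n • a) ↔ ¬ ∃ n : ℤ, x.1 = (r x).1 + n • a := by
    intro x
    constructor
    · rintro ⟨n, hn⟩ ⟨m, hm⟩
      apply (r x).2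
      obtain ⟨t, ht⟩ := QuotientAddGroup.mk_surjective (r x).1
      have ht' : (t : UnitAddCircle) = (r x).1 := ht
      have h1 : ((2 * t - (n - m) * α : ℝ) : UnitAddCircle) = 0 := by
        have h2 : (r x).1 + (r x).1 - (n • a - m • a) = 0 := by
          have := hn.symm.trans hm
          rw [sub_eq_zero]
          calc (r x).1 + (r x).1 = (r x).1 + ((r x).1 + m • a) - m • a := by abel
            _ = (r x).1 + (-(r x).1 + n • a) - m • a := by rw [← this]
            _ = n • a - m • a := by abel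
        rw [← ht'] at h2
        have h3 : ((2 * t - (n - m) * α : ℝ) : UnitAddCircle) =
            (t : UnitAddCircle) + t - (n • a - m • a) := by
          have e1 : (2 * t - (n - m) * α : ℝ) = t + t - (n • α - m • α) := by
            simp only [zsmul_eq_mul]; ring
          rw [e1, AddCircle.coe_sub, AddCircle.coe_add, AddCircle.coe_sub, AddCircle.coe_zsmul,
            AddCircle.coe_zsmul]
        rw [h3]; exact h2
      rw [AddCircle.coe_eq_zero_iff] at h1
      obtain ⟨k, hk⟩ := h1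
      simp only [zsmul_eq_mul, mul_one] at hk
      refine ⟨(n - m, k), ?_⟩
      rw [← ht', coe_eq_iff]
      exact ⟨0, by push_cast; linarith⟩
    · intro h
      rcases S.symm (hr x) with h' | h'
      · exact absurd h' h
      · exact h'
  refine ⟨{x | ∃ n : ℤ, x.1 = (r x).1 + n • a}, fun x => ?_, fun x => ?_⟩
  · show (∃ n : ℤ, (bb α x).1 = (r (bb α x)).1 + n • a) ↔ ¬ ∃ n : ℤ, x.1 = (r x).1 + n • a
    rw [← key, ← hrr _ _ (hb x), bb_val]
    constructor
    · rintro ⟨n, hn⟩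
      exact ⟨-n, by rw [neg_eq_iff_eq_neg.1 hn, neg_zsmul]; abel⟩
    · rintro ⟨n, hn⟩
      exact ⟨-n, by rw [hn, neg_zsmul]; abel⟩
  · show (∃ n : ℤ, (cc α x).1 = (r (cc α x)).1 + n • a) ↔ ¬ ∃ n : ℤ, x.1 = (r x).1 + n • a
    rw [← key, ← hrr _ _ (hc x), cc_val]
    constructor
    · rintro ⟨n, hn⟩
      refine ⟨1 - n, ?_⟩
      rw [sub_zsmul, one_zsmul]
      calc x.1 = a - (a - x.1) := by abel
        _ = a - ((r x).1 + n • a) := by rw [← hn]
        _ = _ := by abel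
    · rintro ⟨n, hn⟩
      refine ⟨1 - n, ?_⟩
      rw [sub_zsmul, one_zsmul]
      show a - x.1 = _
      rw [hn]
      abel

end Circle

/-- There are a group `G` acting on a set `X` and a proper `G`-invariant subalgebra `𝒜` of `𝒫(X)`,
even a `σ`-algebra, such that the cancellation law fails in the type semigroup `𝒮(𝒜)`. -/
theorem result :
    ∃ (G : Type) (_ : Group G) (X : Type) (_ : MulAction G X) (𝒜 : InvAlgebra G X),
      (∀ A : ℕ → Set X, (∀ n, A n ∈ 𝒜.sets) → (⋃ n, A n) ∈ 𝒜.sets) ∧ 𝒜.sets ≠ Set.univ ∧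
      ¬ CancellationLaw 𝒜 := by
  have hα : Irrational (Real.sqrt 2) := irrational_sqrt_two
  set α := Real.sqrt 2
  set 𝒜 := measAlg (bb_meas α) bb_bb (cc_meas α) cc_cc with h𝒜
  refine ⟨Subgroup.closure ({bb α, cc α} : Set (Equiv.Perm (Circ α))), inferInstance, Circ α,
    inferInstance, 𝒜, fun A hA => ?_, ?_, ?_⟩
  · have h1 : ∀ n, MeasurableSet (A n) := hA
    exact (MeasurableSet.iUnion h1 : MeasurableSet (⋃ n, A n))
  · intro h
    obtain ⟨W, hW1, hW2⟩ := common_half α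
    have : W ∈ 𝒜.sets := h ▸ Set.mem_univ W
    exact no_common_half hα this hW1 hW2
  · intro hcl
    set P : Set (Circ α) := {x | x.1 ∈ half} with hP
    set Q : Set (Circ α) := {x | x.1 - ((α / 2 : ℝ) : UnitAddCircle) ∈ half} with hQ
    have hPm : MeasurableSet P := measurable_subtype_coe half_meas
    have hQm : MeasurableSet Q := (measurable_subtype_coe.sub_const _) half_meas
    have hPb : ∀ x, bb α x ∈ P ↔ x ∉ P := by
      intro x
      refine neg_mem_half x.1 fun k hk => x.2 ⟨(0, k), ?_⟩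
      rw [hk, coe_eq_iff]
      exact ⟨0, by push_cast; ring⟩
    have hQc : ∀ x, cc α x ∈ Q ↔ x ∉ Q := by
      intro x
      have e : (cc α x).1 - ((α / 2 : ℝ) : UnitAddCircle) =
          -(x.1 - ((α / 2 : ℝ) : UnitAddCircle)) := by
        have h2 : (α : UnitAddCircle) = ((α / 2 : ℝ) : UnitAddCircle) + ((α / 2 : ℝ) : UnitAddCircle) := by
          rw [← AddCircle.coe_add, add_halves]
        rw [cc_val, h2]
        abel
      show (cc α x).1 - ((α / 2 : ℝ) : UnitAddCircle) ∈ half ↔ _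
      rw [e]
      refine neg_mem_half _ fun k hk => x.2 ⟨(1, k), ?_⟩
      rw [sub_eq_iff_eq_add] at hk
      rw [hk, ← AddCircle.coe_add, coe_eq_iff]
      exact ⟨0, by push_cast; ring⟩
    let gb : Subgroup.closure ({bb α, cc α} : Set (Equiv.Perm (Circ α))) :=
      ⟨bb α, Subgroup.subset_closure (Set.mem_insert _ _)⟩
    let gc : Subgroup.closure ({bb α, cc α} : Set (Equiv.Perm (Circ α))) :=
      ⟨cc α, Subgroup.subset_closure (Set.mem_insert_of_mem _ rfl)⟩
    have h1 := two_half (𝒜 := 𝒜) hPm gb bb_bb hPb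
    have h2 := two_half (𝒜 := 𝒜) hQm gc cc_cc hQc
    have h3 := hcl 2 (by norm_num) _ _ (h2.trans h1.symm)
    rw [ty_eq] at h3
    obtain ⟨W, hW, hW1, hW2⟩ := criterion (bb_meas α) bb_bb (cc_meas α) cc_cc hPb hQc h3 hPm
    exact no_common_half hα hW hW1 hW2

end Pool.Agent.Results.MP_3fd8c4_al.CancellationFails
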